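import Mathlib

/-!
# Uniqueness of the cyclic descent map without two consecutive descent numbers

The shape `(3, 3)` has exactly one cyclic descent map, but the descent numbers `1, 2, 3` occur.
-/

namespace Pool.Agent.Results.MP_496e47_co.TwoByThree

/-- The cells of the skew shape `lam / mu`. A cell `(i, j)` is in row `i` and column `j`
(English notation, rows and columns are numbered from `0`). -/
def skewCells (lam mu : YoungDiagram) : Finset (ℕ × ℕ) := lam.cells \ mu.cells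

/-- Standard Young tableaux of shape `S`, where `S` has `n` cells: bijective fillings with
`0, …, n - 1` (standing for the entries `1, …, n`), increasing along rows and down columns. -/
@[ext] structure SYT (S : Finset (ℕ × ℕ)) (n : ℕ) where
  /-- the bijection from the cells to the labels -/
  entry : {c // c ∈ S} ≃ Fin n
  row_lt : ∀ c d : {c // c ∈ S}, c.1.1 = d.1.1 → c.1.2 < d.1.2 → entry c < entry d
  col_lt : ∀ c d : {c // c ∈ S}, c.1.2 = d.1.2 → c.1.1 < d.1.1 → entry c < entry d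

/-- The descent set: the labels `i` such that `i + 1` is a label which lies in a row strictly
below the row of `i`. -/
def Des {S : Finset (ℕ × ℕ)} {n : ℕ} (T : SYT S n) : Finset (Fin n) :=
  Finset.univ.filter fun i => ∃ h : i.val + 1 < n,
    (T.entry.symm i).1.1 < (T.entry.symm ⟨i.val + 1, h⟩).1.1

/-- A cyclic descent map for the shape `S` with `n` cells. The labels `0, …, n - 1` stand for
`1, …, n`, so `[n - 1]` is the set of the labels `i` with `i + 1 < n`, and `finRotate n` is the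
addition of `1` modulo `n`. -/
def IsCyclicDescentMap {S : Finset (ℕ × ℕ)} {n : ℕ} (cDes : SYT S n → Finset (Fin n)) : Prop :=
  ∃ φ : Equiv.Perm (SYT S n), ∀ T : SYT S n,
    (cDes T).filter (fun i => i.val + 1 < n) = Des T ∧
    cDes (φ T) = (cDes T).map (finRotate n).toEmbedding ∧
    cDes T ≠ ∅ ∧ cDes T ≠ Finset.univ

/-- The set `D(S)` of the descent numbers. -/
def descentNumbers (S : Finset (ℕ × ℕ)) (n : ℕ) : Set ℤ :=
  {k | ∃ T : SYT S n, ((Des T).card : ℤ) = k}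

/-- The shape `(3, 3)`. -/
def shape : YoungDiagram := YoungDiagram.ofRowLens [3, 3] (by decide)

/-- The six cells. -/
def cells6 : Finset (ℕ × ℕ) := {(0, 0), (0, 1), (0, 2), (1, 0), (1, 1), (1, 2)}

lemma skew_eq : skewCells shape ⊥ = cells6 := by decide

/-- A tableau from its table of entries and the inverse table. -/
def mkT (f : ℕ → ℕ → Fin 6) (g : Fin 6 → ℕ × ℕ) (hg : ∀ i, g i ∈ cells6)
    (h1 : ∀ c : {c // c ∈ cells6}, g (f c.1.1 c.1.2) = c.1)
    (h2 : ∀ i, f (g i).1 (g i).2 = i)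
    (h3 : ∀ c d : {c // c ∈ cells6}, c.1.1 = d.1.1 → c.1.2 < d.1.2 →
      f c.1.1 c.1.2 < f d.1.1 d.1.2)
    (h4 : ∀ c d : {c // c ∈ cells6}, c.1.2 = d.1.2 → c.1.1 < d.1.1 →
      f c.1.1 c.1.2 < f d.1.1 d.1.2) : SYT cells6 6 where
  entry := ⟨fun c => f c.1.1 c.1.2, fun i => ⟨g i, hg i⟩, fun c => Subtype.ext (h1 c), h2⟩
  row_lt := h3
  col_lt := h4

/-- The table with first row `a, b, c` and second row `d, e, f`. -/
def tab (a b c d e f : Fin 6) (i j : ℕ) : Fin 6 :=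
  if i = 0 then (if j = 0 then a else if j = 1 then b else c)
  else (if j = 0 then d else if j = 1 then e else f)

/-- `1 2 3 / 4 5 6` -/
def t1 : SYT cells6 6 := mkT (tab 0 1 2 3 4 5) ![(0, 0), (0, 1), (0, 2), (1, 0), (1, 1), (1, 2)]
  (by decide) (by decide) (by decide) (by decide) (by decide)
/-- `1 2 4 / 3 5 6` -/
def t2 : SYT cells6 6 := mkT (tab 0 1 3 2 4 5) ![(0, 0), (0, 1), (1, 0), (0, 2), (1, 1), (1, 2)]
  (by decide) (by decide) (by decide) (by decide) (by decide)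
/-- `1 2 5 / 3 4 6` -/
def t3 : SYT cells6 6 := mkT (tab 0 1 4 2 3 5) ![(0, 0), (0, 1), (1, 0), (1, 1), (0, 2), (1, 2)]
  (by decide) (by decide) (by decide) (by decide) (by decide)
/-- `1 3 4 / 2 5 6` -/
def t4 : SYT cells6 6 := mkT (tab 0 2 3 1 4 5) ![(0, 0), (1, 0), (0, 1), (0, 2), (1, 1), (1, 2)]
  (by decide) (by decide) (by decide) (by decide) (by decide)
/-- `1 3 5 / 2 4 6` -/
def t5 : SYT cells6 6 := mkT (tab 0 2 4 1 3 5) ![(0, 0), (1, 0), (0, 1), (1, 1), (0, 2), (1, 2)]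
  (by decide) (by decide) (by decide) (by decide) (by decide)

lemma ext6 (T : SYT cells6 6) (a b c d e f : Fin 6) (U : SYT cells6 6)
    (hU : ∀ x, U.entry x = tab a b c d e f x.1.1 x.1.2)
    (h : T.entry ⟨(0, 0), by decide⟩ = a ∧ T.entry ⟨(0, 1), by decide⟩ = b ∧
      T.entry ⟨(0, 2), by decide⟩ = c ∧ T.entry ⟨(1, 0), by decide⟩ = d ∧
      T.entry ⟨(1, 1), by decide⟩ = e ∧ T.entry ⟨(1, 2), by decide⟩ = f) : T = U := by
  apply SYT.ext
  apply Equiv.ext
  intro x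
  rw [hU]
  obtain ⟨h1, h2, h3, h4, h5, h6⟩ := h
  obtain ⟨⟨i, j⟩, hx⟩ := x
  have hx' : (i, j) ∈ cells6 := hx
  simp only [cells6, Finset.mem_insert, Finset.mem_singleton, Prod.mk.injEq] at hx'
  rcases hx' with ⟨rfl, rfl⟩ | ⟨rfl, rfl⟩ | ⟨rfl, rfl⟩ | ⟨rfl, rfl⟩ | ⟨rfl, rfl⟩ | ⟨rfl, rfl⟩
  · exact h1
  · exact h2
  · exact h3
  · exact h4
  · exact h5
  · exact h6

lemma keyNat (a b c d e f : ℕ) (q1 : a < b) (q2 : b < c) (q3 : d < e) (q4 : e < f)
    (q5 : a < d) (q6 : b < e) (q7 : c < f) (m1 : b ≠ d) (m2 : c ≠ d) (m3 : c ≠ e) (hf : f < 6) :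
    (a = 0 ∧ b = 1 ∧ c = 2 ∧ d = 3 ∧ e = 4 ∧ f = 5) ∨
    (a = 0 ∧ b = 1 ∧ c = 3 ∧ d = 2 ∧ e = 4 ∧ f = 5) ∨
    (a = 0 ∧ b = 1 ∧ c = 4 ∧ d = 2 ∧ e = 3 ∧ f = 5) ∨
    (a = 0 ∧ b = 2 ∧ c = 3 ∧ d = 1 ∧ e = 4 ∧ f = 5) ∨
    (a = 0 ∧ b = 2 ∧ c = 4 ∧ d = 1 ∧ e = 3 ∧ f = 5) := by
  have hf5 : f = 5 := by omega
  have he : e = 3 ∨ e = 4 := by omega
  have ha : a = 0 := by omega
  have hb : b = 1 ∨ b = 2 := by omega
  subst ha hf5
  rcases he with rfl | rfl <;> rcases hb with rfl | rfl <;> omega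

lemma classify (T : SYT cells6 6) : T = t1 ∨ T = t2 ∨ T = t3 ∨ T = t4 ∨ T = t5 := by
  have r1 := T.row_lt ⟨(0, 0), by decide⟩ ⟨(0, 1), by decide⟩ rfl (by decide)
  have r2 := T.row_lt ⟨(0, 1), by decide⟩ ⟨(0, 2), by decide⟩ rfl (by decide)
  have r3 := T.row_lt ⟨(1, 0), by decide⟩ ⟨(1, 1), by decide⟩ rfl (by decide)
  have r4 := T.row_lt ⟨(1, 1), by decide⟩ ⟨(1, 2), by decide⟩ rfl (by decide)
  have c1 := T.col_lt ⟨(0, 0), by decide⟩ ⟨(1, 0), by decide⟩ rfl (by decide)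
  have c2 := T.col_lt ⟨(0, 1), by decide⟩ ⟨(1, 1), by decide⟩ rfl (by decide)
  have c3 := T.col_lt ⟨(0, 2), by decide⟩ ⟨(1, 2), by decide⟩ rfl (by decide)
  have n1 : T.entry ⟨(0, 1), by decide⟩ ≠ T.entry ⟨(1, 0), by decide⟩ :=
    fun h => absurd (T.entry.injective h) (by decide)
  have n2 : T.entry ⟨(0, 2), by decide⟩ ≠ T.entry ⟨(1, 0), by decide⟩ :=
    fun h => absurd (T.entry.injective h) (by decide)
  have n3 : T.entry ⟨(0, 2), by decide⟩ ≠ T.entry ⟨(1, 1), by decide⟩ :=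
    fun h => absurd (T.entry.injective h) (by decide)
  have key : ∀ a b c d e f : Fin 6, a < b → b < c → d < e → e < f → a < d → b < e → c < f →
      b ≠ d → c ≠ d → c ≠ e →
      (a = 0 ∧ b = 1 ∧ c = 2 ∧ d = 3 ∧ e = 4 ∧ f = 5) ∨
      (a = 0 ∧ b = 1 ∧ c = 3 ∧ d = 2 ∧ e = 4 ∧ f = 5) ∨
      (a = 0 ∧ b = 1 ∧ c = 4 ∧ d = 2 ∧ e = 3 ∧ f = 5) ∨
      (a = 0 ∧ b = 2 ∧ c = 3 ∧ d = 1 ∧ e = 4 ∧ f = 5) ∨
      (a = 0 ∧ b = 2 ∧ c = 4 ∧ d = 1 ∧ e = 3 ∧ f = 5) := by
    intro a b c d e f q1 q2 q3 q4 q5 q6 q7 m1 m2 m3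
    have k := keyNat a.1 b.1 c.1 d.1 e.1 f.1 q1 q2 q3 q4 q5 q6 q7 (fun h => m1 (Fin.ext h))
      (fun h => m2 (Fin.ext h)) (fun h => m3 (Fin.ext h)) f.2
    rcases k with k | k | k | k | k
    · exact Or.inl ⟨Fin.ext k.1, Fin.ext k.2.1, Fin.ext k.2.2.1, Fin.ext k.2.2.2.1,
        Fin.ext k.2.2.2.2.1, Fin.ext k.2.2.2.2.2⟩
    · exact Or.inr (Or.inl ⟨Fin.ext k.1, Fin.ext k.2.1, Fin.ext k.2.2.1, Fin.ext k.2.2.2.1,
        Fin.ext k.2.2.2.2.1, Fin.ext k.2.2.2.2.2⟩)
    · exact Or.inr (Or.inr (Or.inl ⟨Fin.ext k.1, Fin.ext k.2.1, Fin.ext k.2.2.1,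
        Fin.ext k.2.2.2.1, Fin.ext k.2.2.2.2.1, Fin.ext k.2.2.2.2.2⟩))
    · exact Or.inr (Or.inr (Or.inr (Or.inl ⟨Fin.ext k.1, Fin.ext k.2.1, Fin.ext k.2.2.1,
        Fin.ext k.2.2.2.1, Fin.ext k.2.2.2.2.1, Fin.ext k.2.2.2.2.2⟩)))
    · exact Or.inr (Or.inr (Or.inr (Or.inr ⟨Fin.ext k.1, Fin.ext k.2.1, Fin.ext k.2.2.1,
        Fin.ext k.2.2.2.1, Fin.ext k.2.2.2.2.1, Fin.ext k.2.2.2.2.2⟩)))
  rcases key _ _ _ _ _ _ r1 r2 r3 r4 c1 c2 c3 n1 n2 n3 with h | h | h | h | h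
  · exact Or.inl (ext6 T _ _ _ _ _ _ t1 (fun _ => rfl) h)
  · exact Or.inr (Or.inl (ext6 T _ _ _ _ _ _ t2 (fun _ => rfl) h))
  · exact Or.inr (Or.inr (Or.inl (ext6 T _ _ _ _ _ _ t3 (fun _ => rfl) h)))
  · exact Or.inr (Or.inr (Or.inr (Or.inl (ext6 T _ _ _ _ _ _ t4 (fun _ => rfl) h))))
  · exact Or.inr (Or.inr (Or.inr (Or.inr (ext6 T _ _ _ _ _ _ t5 (fun _ => rfl) h))))

lemma des1 : Des t1 = {2} := by decide
lemma des2 : Des t2 = {1, 3} := by decide
lemma des3 : Des t3 = {1, 4} := by decide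
lemma des4 : Des t4 = {0, 3} := by decide
lemma des5 : Des t5 = {0, 2, 4} := by decide

/-- The cyclic descent set as a function of the descent set. -/
def F (D : Finset (Fin 6)) : Finset (Fin 6) :=
  if D = {2} then {2, 5} else if D = {1, 3} then {1, 3, 5} else D

/-- The list of the five descent sets. -/
def dl : Finset (Finset (Fin 6)) := {{2}, {1, 3}, {1, 4}, {0, 3}, {0, 2, 4}}

lemma des_mem (T : SYT cells6 6) : Des T ∈ dl := by
  rcases classify T with rfl | rfl | rfl | rfl | rfl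
  · rw [des1]; decide
  · rw [des2]; decide
  · rw [des3]; decide
  · rw [des4]; decide
  · rw [des5]; decide

/-- The extension of `D` by the last label if `c` holds. -/
def ext5 (D : Finset (Fin 6)) (c : Bool) : Finset (Fin 6) := if c then insert 5 D else D

lemma eq_ext5 (X D : Finset (Fin 6)) (h : X.filter (fun i => i.val + 1 < 6) = D) :
    ∃ c, X = ext5 D c := by
  by_cases h5 : (5 : Fin 6) ∈ X
  · refine ⟨true, ?_⟩
    rw [← h]
    ext i
    simp only [ext5, if_true, Finset.mem_insert, Finset.mem_filter]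
    constructor
    · intro hi
      by_cases hi5 : i = 5
      · exact Or.inl hi5
      · refine Or.inr ⟨hi, ?_⟩
        have := i.2
        have h1 : i.val ≠ 5 := fun h => hi5 (Fin.ext h)
        omega
    · rintro (rfl | ⟨hi, -⟩)
      · exact h5
      · exact hi
  · refine ⟨false, ?_⟩
    rw [← h]
    ext i
    simp only [ext5, Bool.false_eq_true, if_false, Finset.mem_filter]
    constructor
    · intro hi
      refine ⟨hi, ?_⟩
      have := i.2
      have h1 : i.val ≠ 5 := by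
        rintro h
        apply h5
        have : i = 5 := Fin.ext h
        rwa [← this]
      omega
    · rintro ⟨hi, -⟩
      exact hi

lemma forced (cD : SYT cells6 6 → Finset (Fin 6)) (h : IsCyclicDescentMap cD)
    (T : SYT cells6 6) : cD T = F (Des T) := by
  obtain ⟨φ, hφ⟩ := h
  -- every `cD T` is the rotation of some `cD T'` and its rotation is a `cD T''`
  have hext : ∀ T, ∃ c, cD T = ext5 (Des T) c := fun T => eq_ext5 _ _ (hφ T).1
  have hrot : ∀ T, ((cD T).map (finRotate 6).toEmbedding).filter (fun i => i.val + 1 < 6) ∈ dl := by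
    intro T
    rw [← (hφ T).2.1, (hφ (φ T)).1]
    exact des_mem _
  have hinv : ∀ T, ∃ T', (cD T').map (finRotate 6).toEmbedding = cD T := by
    intro T
    refine ⟨φ.symm T, ?_⟩
    rw [← (hφ (φ.symm T)).2.1, Equiv.apply_symm_apply]
  have key : ∀ D ∈ dl, ∀ c : Bool,
      ((ext5 D c).map (finRotate 6).toEmbedding).filter (fun i => i.val + 1 < 6) ∈ dl →
      (∃ D' ∈ dl, ∃ c' : Bool, (ext5 D' c').map (finRotate 6).toEmbedding = ext5 D c) →
      ext5 D c = F D := by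
    decide
  obtain ⟨c, hc⟩ := hext T
  rw [hc]
  apply key _ (des_mem T)
  · rw [← hc]; exact hrot T
  · obtain ⟨T', hT'⟩ := hinv T
    obtain ⟨c', hc'⟩ := hext T'
    exact ⟨Des T', des_mem T', c', by rw [← hc', hT', hc]⟩

/-- The map `φ`. -/
noncomputable def phi (T : SYT cells6 6) : SYT cells6 6 :=
  if Des T = {2} then t4 else if Des T = {0, 3} then t3 else if Des T = {1, 4} then t1
  else if Des T = {1, 3} then t5 else t2

/-- The inverse of `φ`. -/
noncomputable def phiInv (T : SYT cells6 6) : SYT cells6 6 :=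
  if Des T = {2} then t3 else if Des T = {0, 3} then t1 else if Des T = {1, 4} then t4
  else if Des T = {1, 3} then t5 else t2

lemma phi1 : phi t1 = t4 := by unfold phi; rw [des1]; rfl
lemma phi2 : phi t2 = t5 := by unfold phi; rw [des2]; rfl
lemma phi3 : phi t3 = t1 := by unfold phi; rw [des3]; rfl
lemma phi4 : phi t4 = t3 := by unfold phi; rw [des4]; rfl
lemma phi5 : phi t5 = t2 := by unfold phi; rw [des5]; rfl
lemma inv1 : phiInv t1 = t3 := by unfold phiInv; rw [des1]; rfl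
lemma inv2 : phiInv t2 = t5 := by unfold phiInv; rw [des2]; rfl
lemma inv3 : phiInv t3 = t4 := by unfold phiInv; rw [des3]; rfl
lemma inv4 : phiInv t4 = t1 := by unfold phiInv; rw [des4]; rfl
lemma inv5 : phiInv t5 = t2 := by unfold phiInv; rw [des5]; rfl

/-- `φ` as a permutation. -/
noncomputable def phiE : Equiv.Perm (SYT cells6 6) where
  toFun := phi
  invFun := phiInv
  left_inv T := by
    rcases classify T with rfl | rfl | rfl | rfl | rfl
    · rw [phi1, inv4]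
    · rw [phi2, inv5]
    · rw [phi3, inv1]
    · rw [phi4, inv3]
    · rw [phi5, inv2]
  right_inv T := by
    rcases classify T with rfl | rfl | rfl | rfl | rfl
    · rw [inv1, phi3]
    · rw [inv2, phi5]
    · rw [inv3, phi4]
    · rw [inv4, phi1]
    · rw [inv5, phi2]

lemma isMap : IsCyclicDescentMap (fun T : SYT cells6 6 => F (Des T)) := by
  refine ⟨phiE, fun T => ?_⟩
  have hp : ∀ T, phiE T = phi T := fun _ => rfl
  rw [hp]
  beta_reduce
  rcases classify T with rfl | rfl | rfl | rfl | rfl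
  · rw [phi1, des1, des4]; decide
  · rw [phi2, des2, des5]; decide
  · rw [phi3, des3, des1]; decide
  · rw [phi4, des4, des3]; decide
  · rw [phi5, des5, des2]; decide

lemma numbers : descentNumbers cells6 6 = {1, 2, 3} := by
  ext k
  constructor
  · rintro ⟨T, rfl⟩
    rcases classify T with rfl | rfl | rfl | rfl | rfl
    · rw [des1]; decide
    · rw [des2]; decide
    · rw [des3]; decide
    · rw [des4]; decide
    · rw [des5]; decide
  · intro hk
    simp only [Set.mem_insert_iff, Set.mem_singleton_iff] at hk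
    rcases hk with rfl | rfl | rfl
    · exact ⟨t1, by rw [des1]; decide⟩
    · exact ⟨t2, by rw [des2]; decide⟩
    · exact ⟨t5, by rw [des5]; decide⟩

/-- **Counterexample.** There is a skew shape `S = lam / mu` (the rectangle `(3, 3)`) with exactly
one cyclic descent map, but the set `D(S)` of its descent numbers is `{1, 2, 3}`, which is not of
the form `{k - 1, k}`. -/
theorem result : ∃ (lam mu : YoungDiagram) (n : ℕ), mu ≤ lam ∧ (skewCells lam mu).card = n ∧
    (∃! cDes : SYT (skewCells lam mu) n → Finset (Fin n), IsCyclicDescentMap cDes) ∧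
    descentNumbers (skewCells lam mu) n = {1, 2, 3} ∧
    ¬ ∃ k : ℤ, descentNumbers (skewCells lam mu) n = {k - 1, k} := by
  refine ⟨shape, ⊥, 6, bot_le, by decide, ?_⟩
  rw [skew_eq]
  refine ⟨⟨fun T => F (Des T), isMap, fun cD h => funext fun T => forced cD h T⟩, numbers, ?_⟩
  rintro ⟨k, hk⟩
  rw [numbers] at hk
  have h1 : (1 : ℤ) ∈ ({k - 1, k} : Set ℤ) := by rw [← hk]; simp
  have h3 : (3 : ℤ) ∈ ({k - 1, k} : Set ℤ) := by rw [← hk]; simp
  simp only [Set.mem_insert_iff, Set.mem_singleton_iff] at h1 h3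
  omega

end Pool.Agent.Results.MP_496e47_co.TwoByThree
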